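import Mathlib

open Polynomial

set_option autoImplicit false

namespace Pool.Agent.Results.MP_086516_nt.TorusPoints

/-- The primitive `k`-th root of unity `exp (2 π i / k)`. -/
noncomputable def zeta (k : ℕ) : ℂ := Complex.exp (2 * Real.pi * Complex.I / k)

/-- The set `A_k` of the coefficient vectors, in the basis `1, ζ, ..., ζ ^ (φ(k) - 1)` of
`ℤ[ζ]`, of the `k`-th roots of unity. -/
def A (k : ℕ) : Set (Fin (Nat.totient k) → ℤ) :=
  {a | (∑ j, (a j : ℂ) * zeta k ^ (j : ℕ)) ^ k = 1}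

/-- The Laurent polynomial `F_k`, the sum of the monomials with exponent vectors in `A_k`. -/
noncomputable def F (k : ℕ) (x : Fin (Nat.totient k) → ℂ) : ℂ :=
  ∑ᶠ a ∈ A k, ∏ j, x j ^ a j

lemma zeta_prim {k : ℕ} (hk : k ≠ 0) : IsPrimitiveRoot (zeta k) k := Complex.isPrimitiveRoot_exp k hk

/-! ### Coefficient vectors -/

/-- The coefficient vector of `ζ ^ i`. -/
noncomputable def vec (k i : ℕ) (j : Fin (Nat.totient k)) : ℤ :=
  ((X : ℤ[X]) ^ i %ₘ cyclotomic k ℤ).coeff j

lemma natDegree_lt {k : ℕ} (hk : 0 < k) (i : ℕ) :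
    ((X : ℤ[X]) ^ i %ₘ cyclotomic k ℤ).natDegree < Nat.totient k := by
  have hm := cyclotomic.monic k ℤ
  have hd : (cyclotomic k ℤ).natDegree = Nat.totient k := natDegree_cyclotomic k ℤ
  have hpos : 0 < Nat.totient k := Nat.totient_pos.2 hk
  rw [← hd]
  refine natDegree_modByMonic_lt _ hm ?_
  intro h
  rw [h, natDegree_one] at hd
  omega

/-- For any primitive root `z` of order `k`, the coefficient vector of `ζ ^ i` also gives
`z ^ i`. -/
lemma sum_vec {k : ℕ} (hk : 0 < k) (i : ℕ) {z : ℂ} (hz : IsPrimitiveRoot z k) :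
    ∑ j, (vec k i j : ℂ) * z ^ (j : ℕ) = z ^ i := by
  have h1 : aeval z ((X : ℤ[X]) ^ i %ₘ cyclotomic k ℤ) = z ^ i := by
    have h2 := modByMonic_add_div ((X : ℤ[X]) ^ i) (cyclotomic k ℤ)
    have h3 := congrArg (aeval z) h2
    rw [map_add, map_mul, map_pow, aeval_X] at h3
    have h4 : aeval z (cyclotomic k ℤ) = 0 := by
      rw [cyclotomic_eq_minpoly hz hk]
      exact minpoly.aeval ℤ z
    rw [h4, zero_mul, add_zero] at h3
    exact h3
  rw [aeval_eq_sum_range' (natDegree_lt hk i)] at h1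
  rw [← h1, Finset.sum_range]
  refine Finset.sum_congr rfl fun j _ => ?_
  rw [vec, zsmul_eq_mul]

lemma vec_injOn {k : ℕ} (hk : 0 < k) : Set.InjOn (vec k) (Finset.range k : Finset ℕ) := by
  intro i hi j hj hij
  have h1 := sum_vec hk i (zeta_prim hk.ne')
  rw [hij, sum_vec hk j (zeta_prim hk.ne')] at h1
  exact (zeta_prim hk.ne').pow_inj (Finset.mem_range.1 (Finset.mem_coe.1 hi))
    (Finset.mem_range.1 (Finset.mem_coe.1 hj)) h1.symm

/-- Coefficient vectors are unique. -/
lemma vec_unique {k : ℕ} (hk : 0 < k) (a b : Fin (Nat.totient k) → ℤ)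
    (h : ∑ j, (a j : ℂ) * zeta k ^ (j : ℕ) = ∑ j, (b j : ℂ) * zeta k ^ (j : ℕ)) : a = b := by
  set P : ℤ[X] := ∑ j : Fin (Nat.totient k), C (a j - b j) * X ^ (j : ℕ) with hP
  have h1 : aeval (zeta k) P = 0 := by
    rw [hP, map_sum]
    have h2 : ∀ j : Fin (Nat.totient k), aeval (zeta k) (C (a j - b j) * X ^ (j : ℕ)) =
        (a j : ℂ) * zeta k ^ (j : ℕ) - (b j : ℂ) * zeta k ^ (j : ℕ) := by
      intro j
      rw [map_mul, map_pow, aeval_X, aeval_C]
      simp only [algebraMap_int_eq, eq_intCast]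
      push_cast
      ring
    simp_rw [h2]
    rw [Finset.sum_sub_distrib, h, sub_self]
  have h3 : minpoly ℤ (zeta k) ∣ P := by
    refine minpoly.isIntegrallyClosed_dvd ?_ h1
    exact (zeta_prim hk.ne').isIntegral hk
  rw [← cyclotomic_eq_minpoly (zeta_prim hk.ne') hk] at h3
  have hcoeff : ∀ j : Fin (Nat.totient k), P.coeff j = a j - b j := by
    intro j
    rw [hP, finsetSum_coeff]
    simp only [coeff_C_mul, coeff_X_pow]
    rw [Finset.sum_eq_single j]
    · simp
    · intro i _ hij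
      have : (j : ℕ) ≠ (i : ℕ) := fun h => hij (Fin.ext h.symm)
      simp [this]
    · simp
  have hdeg : P.degree < (cyclotomic k ℤ).degree := by
    rw [degree_cyclotomic]
    rw [hP]
    refine lt_of_le_of_lt (degree_sum_le _ _) ?_
    rw [Finset.sup_lt_iff]
    · intro j _
      refine lt_of_le_of_lt (degree_C_mul_X_pow_le _ _) ?_
      exact_mod_cast j.2
    · exact_mod_cast WithBot.bot_lt_coe _
  have hP0 : P = 0 := eq_zero_of_dvd_of_degree_lt h3 hdeg
  funext j
  have := hcoeff j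
  rw [hP0, coeff_zero] at this
  linarith

lemma A_eq {k : ℕ} (hk : 0 < k) : A k = vec k '' (Finset.range k : Finset ℕ) := by
  have hz := zeta_prim hk.ne'
  apply Set.Subset.antisymm
  · intro a ha
    have hk' : NeZero k := ⟨hk.ne'⟩
    obtain ⟨i, hi, hia⟩ := hz.eq_pow_of_pow_eq_one ha
    refine ⟨i, by simpa using hi, ?_⟩
    apply vec_unique hk
    rw [sum_vec hk i hz, hia]
  · rintro _ ⟨i, _, rfl⟩
    change (∑ j, (vec k i j : ℂ) * zeta k ^ (j : ℕ)) ^ k = 1
    rw [sum_vec hk i hz, ← pow_mul, mul_comm, pow_mul, hz.pow_eq_one, one_pow]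

lemma F_eq {k : ℕ} (hk : 0 < k) (x : Fin (Nat.totient k) → ℂ) :
    F k x = ∑ i ∈ Finset.range k, ∏ j, x j ^ vec k i j := by
  rw [F, A_eq hk, finsum_mem_image (vec_injOn hk), finsum_mem_coe_finset]

/-! ### Sequences spanned by primitive roots of unity -/

/-- The sequences `i ↦ z ^ i` with `z` a primitive `k`-th root of unity. -/
def gens (k : ℕ) : Set (ℕ → ℂ) := {f | ∃ z : ℂ, IsPrimitiveRoot z k ∧ f = fun i => z ^ i}

/-- The space spanned by these sequences. -/
noncomputable def W (k : ℕ) : Submodule ℂ (ℕ → ℂ) := Submodule.span ℂ (gens k)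

lemma W_relation {k : ℕ} (hk : 0 < k) (i : ℕ) (f : ℕ → ℂ) (hf : f ∈ W k) :
    ∑ j, (vec k i j : ℂ) * f (j : ℕ) = f i := by
  induction hf using Submodule.span_induction with
  | mem f hf =>
    obtain ⟨z, hz, rfl⟩ := hf
    exact sum_vec hk i hz
  | zero => simp
  | add f g _ _ hf hg =>
    simp only [Pi.add_apply, mul_add, Finset.sum_add_distrib]
    rw [hf, hg]
  | smul c f _ hf =>
    simp only [Pi.smul_apply, smul_eq_mul]
    rw [← hf, Finset.mul_sum]
    refine Finset.sum_congr rfl fun j _ => ?_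
    ring

lemma prim_mul {k l : ℕ} (hkl : Nat.Coprime k l) {z w : ℂ} (hz : IsPrimitiveRoot z k)
    (hw : IsPrimitiveRoot w l) : IsPrimitiveRoot (z * w) (k * l) := by
  have h := (Commute.all z w).orderOf_mul_eq_mul_orderOf_of_coprime
    (by rw [← hz.eq_orderOf, ← hw.eq_orderOf]; exact hkl)
  rw [← hz.eq_orderOf, ← hw.eq_orderOf] at h
  rw [← h]
  exact IsPrimitiveRoot.orderOf _

lemma W_mul {k l : ℕ} (hkl : Nat.Coprime k l) {f g : ℕ → ℂ} (hf : f ∈ W k) (hg : g ∈ W l) :
    f * g ∈ W (k * l) := by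
  have h := Submodule.mul_mem_mul hf hg
  rw [W, W, Submodule.span_mul_span] at h
  refine Submodule.span_mono ?_ h
  rintro _ ⟨f, ⟨z, hz, rfl⟩, g, ⟨w, hw, rfl⟩, rfl⟩
  refine ⟨z * w, prim_mul hkl hz hw, ?_⟩
  funext i
  simp [mul_pow]

/-- Averaging over shifts. -/
lemma sum_eq_zero_of_shift (f : ℕ → ℂ) (k c p : ℕ) (hp : 0 < p) (hf : ∀ i, f (i + k) = f i)
    (h : ∀ i, ∑ j ∈ Finset.range p, f (i + j * c) = 0) : ∑ i ∈ Finset.range k, f i = 0 := by
  have h1 : ∀ s, ∑ i ∈ Finset.range k, f (i + s) = ∑ i ∈ Finset.range k, f i := by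
    intro s
    induction s with
    | zero => simp
    | succ s ih =>
      rw [← ih]
      have h2 := Finset.sum_range_succ (fun i => f (i + s)) k
      have h3 := Finset.sum_range_succ' (fun i => f (i + s)) k
      rw [h2] at h3
      have h4 : f (k + s) = f (0 + s) := by
        rw [zero_add, add_comm, hf]
      rw [h4] at h3
      have h5 := add_right_cancel h3
      rw [h5]
      refine Finset.sum_congr rfl fun i _ => ?_
      congr 1
      ring
  have h2 : ∑ j ∈ Finset.range p, ∑ i ∈ Finset.range k, f (i + j * c) =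
      p * ∑ i ∈ Finset.range k, f i := by
    rw [Finset.sum_congr rfl fun j _ => h1 (j * c)]
    simp
  rw [Finset.sum_comm] at h2
  rw [Finset.sum_congr rfl fun i _ => h i, Finset.sum_const_zero] at h2
  have hp' : (p : ℂ) ≠ 0 := by exact_mod_cast hp.ne'
  exact (mul_eq_zero.1 h2.symm).resolve_left hp'

/-- Shifting by multiples of a unit permutes the residues. -/
lemma sum_mod {R : Type*} [AddCommMonoid R] (v : ℕ → R) (p m s : ℕ) (hp : 0 < p)
    (hm : Nat.Coprime m p) :
    ∑ j ∈ Finset.range p, v ((s + j * m) % p) = ∑ j ∈ Finset.range p, v j := by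
  refine Finset.sum_bij (fun j _ => (s + j * m) % p) ?_ ?_ ?_ ?_
  · intro j _
    exact Finset.mem_range.2 (Nat.mod_lt _ hp)
  · intro i hi j hj hij
    have h1 : s + i * m ≡ s + j * m [MOD p] := hij
    have h2 : i * m ≡ j * m [MOD p] := Nat.ModEq.add_left_cancel' s h1
    have h3 : i ≡ j [MOD p] := Nat.ModEq.cancel_right_of_coprime hm.symm h2
    exact Nat.ModEq.eq_of_lt_of_lt h3 (Finset.mem_range.1 hi) (Finset.mem_range.1 hj)
  · intro b hb
    have hinj : Set.InjOn (fun j => (s + j * m) % p) (Finset.range p : Finset ℕ) := by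
      intro i hi j hj hij
      have h1 : s + i * m ≡ s + j * m [MOD p] := hij
      have h2 : i * m ≡ j * m [MOD p] := Nat.ModEq.add_left_cancel' s h1
      have h3 : i ≡ j [MOD p] := Nat.ModEq.cancel_right_of_coprime hm.symm h2
      exact Nat.ModEq.eq_of_lt_of_lt h3 (Finset.mem_range.1 (Finset.mem_coe.1 hi))
        (Finset.mem_range.1 (Finset.mem_coe.1 hj))
    have hmaps : Set.MapsTo (fun j => (s + j * m) % p) (Finset.range p : Finset ℕ)
        (Finset.range p : Finset ℕ) := by
      intro j _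
      exact Finset.mem_coe.2 (Finset.mem_range.2 (Nat.mod_lt _ hp))
    have hsurj := Finset.surjOn_of_injOn_of_card_le _ hmaps hinj le_rfl
    obtain ⟨a, ha, hab⟩ := hsurj (Finset.mem_coe.2 hb)
    exact ⟨a, Finset.mem_coe.1 ha, hab⟩
  · intro j _
    rfl

/-- The step function with steps of length `p ^ (b - 1)` and values `v 0, ..., v (p - 1)`. -/
def step (v : ℕ → ℤ) (p b : ℕ) (i : ℕ) : ℤ := v ((i / p ^ (b - 1)) % p)

lemma step_shift (v : ℕ → ℤ) {p b : ℕ} (hp : 0 < p) (i j m : ℕ) :
    step v p b (i + j * (m * p ^ (b - 1))) = v ((i / p ^ (b - 1) + j * m) % p) := by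
  unfold step
  rw [← mul_assoc, Nat.add_mul_div_right _ _ (pow_pos hp _)]

lemma step_periodic (v : ℕ → ℤ) {p b : ℕ} (hp : 0 < p) (hb : 0 < b) (i : ℕ) :
    step v p b (i + p ^ b) = step v p b i := by
  have h1 : p ^ b = 1 * (p * p ^ (b - 1)) := by
    rw [one_mul, ← pow_succ', Nat.sub_add_cancel hb]
  rw [h1, step_shift v hp, one_mul, Nat.add_mod_right]
  rfl

lemma step_mod (v : ℕ → ℤ) {p b : ℕ} (hp : 0 < p) (hb : 0 < b) (i : ℕ) :
    step v p b (i % p ^ b) = step v p b i := by
  have h : Function.Periodic (step v p b) (p ^ b) := step_periodic v hp hb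
  exact h.map_mod_nat i

/-- A step function with values of sum zero is spanned by primitive roots. -/
lemma step_mem (v : ℕ → ℤ) {p b : ℕ} (hp : p.Prime) (hb : 0 < b)
    (hv : ∑ j ∈ Finset.range p, v j = 0) : (fun i => (step v p b i : ℂ)) ∈ W (p ^ b) := by
  set n := p ^ b with hn
  have hnpos : 0 < n := pow_pos hp.pos b
  have hω := zeta_prim (k := n) hnpos.ne'
  set ω := zeta n with hωdef
  have hω0 : ω ≠ 0 := hω.ne_zero hnpos.ne'
  set c : ℕ → ℂ := fun s => (n : ℂ)⁻¹ * ∑ j ∈ Finset.range n, (step v p b j : ℂ) * (ω⁻¹) ^ (s * j)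
    with hc
  have hc0 : ∀ s, p ∣ s → c s = 0 := by
    rintro s ⟨t, rfl⟩
    simp only [hc]
    rw [sum_eq_zero_of_shift _ n (p ^ (b - 1)) p hp.pos, mul_zero]
    · intro i
      rw [step_periodic v hp.pos hb, mul_add, pow_add]
      have : (ω⁻¹) ^ (p * t * n) = 1 := by
        rw [mul_comm, pow_mul, inv_pow, hω.pow_eq_one, inv_one, one_pow]
      rw [this, mul_one]
    · intro i
      have h1 : ∀ j ∈ Finset.range p, (step v p b (i + j * p ^ (b - 1)) : ℂ) *
          (ω⁻¹) ^ (p * t * (i + j * p ^ (b - 1))) =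
          (v ((i / p ^ (b - 1) + j * 1) % p) : ℂ) * (ω⁻¹) ^ (p * t * i) := by
        intro j _
        have h2 := step_shift v (b := b) hp.pos i j 1
        rw [one_mul] at h2
        rw [h2]
        congr 1
        rw [mul_add, pow_add]
        have h3 : p * t * (j * p ^ (b - 1)) = n * (t * j) := by
          have : n = p * p ^ (b - 1) := by rw [hn, ← pow_succ', Nat.sub_add_cancel hb]
          rw [this]
          ring
        have h6 : (ω⁻¹) ^ (n * (t * j)) = 1 := by
          rw [pow_mul, inv_pow, hω.pow_eq_one, inv_one, one_pow]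
        rw [h3, h6, mul_one]
      rw [Finset.sum_congr rfl h1, ← Finset.sum_mul]
      have h4 := sum_mod (fun j => (v j : ℂ)) p 1 (i / p ^ (b - 1)) hp.pos (Nat.coprime_one_left p)
      rw [h4]
      have h5 : ∑ j ∈ Finset.range p, (v j : ℂ) = 0 := by exact_mod_cast hv
      rw [h5, zero_mul]
  have hinv : ∀ i, (step v p b i : ℂ) = ∑ s ∈ Finset.range n, c s * (ω ^ s) ^ i := by
    intro i
    have h1 : ∑ s ∈ Finset.range n, c s * (ω ^ s) ^ i = (n : ℂ)⁻¹ * ∑ j ∈ Finset.range n,
        (step v p b j : ℂ) * ∑ s ∈ Finset.range n, (ω ^ i * (ω⁻¹) ^ j) ^ s := by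
      simp only [hc]
      simp_rw [Finset.mul_sum, Finset.sum_mul]
      rw [Finset.sum_comm]
      refine Finset.sum_congr rfl fun j _ => Finset.sum_congr rfl fun s _ => ?_
      rw [mul_pow, ← pow_mul, ← pow_mul, ← pow_mul, mul_comm s j, mul_comm i s]
      ring
    rw [h1, Finset.sum_eq_single (i % n)]
    · have h2 : ω ^ i * (ω⁻¹) ^ (i % n) = 1 := by
        rw [inv_pow, ← pow_mod_orderOf ω i, ← hω.eq_orderOf]
        exact mul_inv_cancel₀ (pow_ne_zero _ hω0)
      rw [h2]
      simp only [one_pow, Finset.sum_const, Finset.card_range, nsmul_eq_mul, mul_one]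
      rw [hn, step_mod v hp.pos hb, ← hn]
      have : (n : ℂ) ≠ 0 := by exact_mod_cast hnpos.ne'
      field_simp
    · intro j hj hji
      have hj' := Finset.mem_range.1 hj
      have h2 : (ω ^ i * (ω⁻¹) ^ j) ≠ 1 := by
        intro h3
        apply hji
        have h4 : ω ^ i = ω ^ j := by
          rw [inv_pow] at h3
          exact (mul_inv_eq_one₀ (pow_ne_zero _ hω0)).1 h3
        rw [← pow_mod_orderOf ω i, ← hω.eq_orderOf] at h4
        exact (hω.pow_inj (Nat.mod_lt _ hnpos) hj' h4).symm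
      have h3 : (ω ^ i * (ω⁻¹) ^ j) ^ n = 1 := by
        rw [mul_pow, ← pow_mul, ← pow_mul, mul_comm i n, mul_comm j n, pow_mul, pow_mul, inv_pow,
          hω.pow_eq_one]
        simp
      rw [geom_sum_eq h2, h3, sub_self, zero_div, mul_zero]
    · intro h
      exact absurd (Finset.mem_range.2 (Nat.mod_lt _ hnpos)) h
  have hfun : (fun i => (step v p b i : ℂ)) =
      ∑ s ∈ Finset.range n, c s • (fun i : ℕ => (ω ^ s) ^ i) := by
    funext i
    rw [hinv i, Finset.sum_apply]
    rfl
  rw [hfun]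
  refine Submodule.sum_mem _ fun s _ => ?_
  by_cases hs : p ∣ s
  · rw [hc0 s hs, zero_smul]
    exact Submodule.zero_mem _
  · refine Submodule.smul_mem _ _ (Submodule.subset_span ⟨ω ^ s, ?_, rfl⟩)
    refine hω.pow_of_coprime s ?_
    rw [hn]
    exact Nat.Coprime.pow_right b ((Nat.Prime.coprime_iff_not_dvd hp).2 hs).symm

/-- Values of sum zero, none divisible by an odd prime. -/
lemma exists_values {p : ℕ} (hp : p.Prime) :
    ∃ v : ℕ → ℤ, ∑ j ∈ Finset.range p, v j = 0 ∧ ∀ j, v j = 1 ∨ v j = -1 ∨ v j = -2 := by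
  rcases hp.eq_two_or_odd' with rfl | hodd
  · refine ⟨fun j => if j = 0 then 1 else -1, by simp [Finset.sum_range_succ], fun j => ?_⟩
    by_cases h : j = 0 <;> simp [h]
  · have h3 : 3 ≤ p := by
      have := hp.two_le
      rcases hodd with ⟨r, hr⟩
      omega
    refine ⟨fun j => -(-1) ^ j + (if j = 0 then 2 else 0) - (if j = 2 then 1 else 0), ?_, ?_⟩
    · rw [Finset.sum_sub_distrib, Finset.sum_add_distrib, Finset.sum_neg_distrib,
        neg_one_geom_sum, Finset.sum_ite_eq' (Finset.range p) 0,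
        Finset.sum_ite_eq' (Finset.range p) 2]
      have h0 : (0 : ℕ) ∈ Finset.range p := Finset.mem_range.2 (by omega)
      have h2 : (2 : ℕ) ∈ Finset.range p := Finset.mem_range.2 (by omega)
      rw [if_neg (Nat.not_even_iff_odd.2 hodd), if_pos h0, if_pos h2]
      norm_num
    · intro j
      by_cases h0 : j = 0
      · left; simp [h0]
      · by_cases h2 : j = 2
        · right; right; simp [h2]
        · simp only [if_neg h0, if_neg h2, add_zero, sub_zero]
          rcases neg_one_pow_eq_or ℤ j with h | h <;> simp [h]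

/-- For `m` prime to the odd prime `q` there is an integer sequence spanned by the primitive
`m`-th roots of unity, none of whose terms is divisible by `q`. -/
lemma exists_nowhere_zero (q : ℕ) (hq : q.Prime) (hq2 : q ≠ 2) (m : ℕ) (hm : 0 < m) :
    ∃ H : ℕ → ℤ, (∀ i, H (i + m) = H i) ∧ (fun i => (H i : ℂ)) ∈ W m ∧ ∀ i, ¬ (q : ℤ) ∣ H i := by
  have hq2' : ¬ (q : ℤ) ∣ 2 := by
    intro h
    have h1 : q ∣ 2 := by exact_mod_cast h
    exact hq2 ((Nat.prime_dvd_prime_iff_eq hq Nat.prime_two).1 h1)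
  have hq1 : ¬ (q : ℤ) ∣ 1 := by
    intro h
    exact hq2' (h.mul_right 2 |>.trans (by norm_num))
  induction m using Nat.recOnPosPrimePosCoprime with
  | prime_pow p b hp hb =>
    obtain ⟨v, hv1, hv2⟩ := exists_values hp
    refine ⟨step v p b, step_periodic v hp.pos hb, step_mem v hp hb hv1, fun i => ?_⟩
    unfold step
    rcases hv2 ((i / p ^ (b - 1)) % p) with h | h | h
    · rw [h]; exact hq1
    · rw [h, dvd_neg]; exact hq1
    · rw [h, dvd_neg]; exact hq2'
  | zero => exact absurd hm (lt_irrefl 0)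
  | one =>
    refine ⟨fun _ => 1, fun _ => rfl, ?_, fun _ => hq1⟩
    refine Submodule.subset_span ⟨1, IsPrimitiveRoot.one, ?_⟩
    funext i
    simp
  | coprime a b ha hb hab iha ihb =>
    obtain ⟨H, h1, h2, h3⟩ := iha (by omega)
    obtain ⟨G, g1, g2, g3⟩ := ihb (by omega)
    refine ⟨fun i => H i * G i, fun i => ?_, ?_, fun i h => ?_⟩
    · have e1 : H (i + a * b) = H i := by
        have : Function.Periodic H a := h1
        have h4 := this.nat_mul b i
        rw [mul_comm]
        exact h4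
      have e2 : G (i + a * b) = G i := by
        have : Function.Periodic G b := g1
        exact this.nat_mul a i
      change H (i + a * b) * G (i + a * b) = H i * G i
      rw [e1, e2]
    · have := W_mul hab h2 g2
      have h4 : (fun i => ((H i * G i : ℤ) : ℂ)) = (fun i => (H i : ℂ)) * fun i => (G i : ℂ) := by
        funext i
        simp
      rw [h4]
      exact this
    · have hqi : Prime (q : ℤ) := Nat.prime_iff_prime_int.1 hq
      rcases hqi.dvd_or_dvd h with h | h
      · exact h3 i h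
      · exact g3 i h

/-- The exponential `exp (2 π i y / N)` for integer `y` and real `t`. -/
noncomputable def ex (N : ℕ) (t : ℝ) (y : ℤ) : ℂ :=
  Complex.exp (((2 * Real.pi * t * y / N : ℝ) : ℂ) * Complex.I)

lemma norm_ex (N : ℕ) (t : ℝ) (y : ℤ) : ‖ex N t y‖ = 1 := Complex.norm_exp_ofReal_mul_I _

lemma ex_add (N : ℕ) (t : ℝ) (y z : ℤ) : ex N t (y + z) = ex N t y * ex N t z := by
  unfold ex
  rw [← Complex.exp_add]
  congr 1
  push_cast
  ring

lemma ex_zpow (N : ℕ) (t : ℝ) (y c : ℤ) : ex N t y ^ c = ex N t (c * y) := by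
  unfold ex
  rw [← Complex.exp_int_mul]
  congr 1
  push_cast
  ring

lemma ex_pow (N : ℕ) (t : ℝ) (y : ℤ) (c : ℕ) : ex N t y ^ c = ex N t (c * y) := by
  have := ex_zpow N t y c
  rwa [zpow_natCast] at this

lemma ex_one_self (N : ℕ) (hN : 0 < N) (y : ℤ) : ex N 1 (N * y) = 1 := by
  unfold ex
  have hN' : (N : ℝ) ≠ 0 := by positivity
  rw [Complex.exp_eq_one_iff]
  refine ⟨y, ?_⟩
  have : (2 * Real.pi * 1 * ((N * y : ℤ) : ℝ) / N : ℝ) = 2 * Real.pi * y := by
    push_cast
    field_simp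
  rw [this]
  push_cast
  ring

lemma ex_one_ne (N : ℕ) (hN : 0 < N) (y : ℤ) (h : ¬ (N : ℤ) ∣ y) : ex N 1 y ≠ 1 := by
  unfold ex
  have hN' : (N : ℝ) ≠ 0 := by positivity
  intro h1
  rw [Complex.exp_eq_one_iff] at h1
  obtain ⟨n, hn⟩ := h1
  apply h
  refine ⟨n, ?_⟩
  have h2 : ((2 * Real.pi * 1 * y / N : ℝ) : ℂ) = ((n * (2 * Real.pi) : ℝ) : ℂ) := by
    have h3 : ((2 * Real.pi * 1 * y / N : ℝ) : ℂ) * Complex.I =
        ((n * (2 * Real.pi) : ℝ) : ℂ) * Complex.I := by
      rw [hn]
      push_cast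
      ring
    exact mul_right_cancel₀ Complex.I_ne_zero h3
  have h4 : (2 * Real.pi * 1 * y / N : ℝ) = n * (2 * Real.pi) := by exact_mod_cast h2
  have hpi : (2 * Real.pi : ℝ) ≠ 0 := by positivity
  have h5 : (y : ℝ) = N * n := by
    field_simp at h4
    linarith
  exact_mod_cast h5

/-- The values `0 - (q-1)/2, ..., (q-1) - (q-1)/2`. -/
lemma sum_centered (q : ℕ) (hq : Odd q) :
    ∑ j ∈ Finset.range q, ((j : ℤ) - ((q - 1) / 2 : ℕ)) = 0 := by
  obtain ⟨r, rfl⟩ := hq
  have h1 : (2 * r + 1 - 1) / 2 = r := by omega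
  rw [h1, Finset.sum_sub_distrib]
  have h2 := Finset.sum_range_id_mul_two (2 * r + 1)
  have h3 : ((∑ j ∈ Finset.range (2 * r + 1), j : ℕ) : ℤ) * 2 = (2 * r + 1) * (2 * r) := by
    have := congrArg (fun x : ℕ => (x : ℤ)) h2
    simp only [Nat.add_sub_cancel] at this
    push_cast at this ⊢
    exact this
  simp only [Finset.sum_const, Finset.card_range, nsmul_eq_mul]
  push_cast at h3 ⊢
  linarith

/-- A zero of `F_k` on the torus, in exponential form, for every `k ≥ 2`. -/
lemma exists_zero {k : ℕ} (hk : 2 ≤ k) : ∃ (N : ℕ) (H : ℕ → ℤ),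
    (fun i => (H i : ℂ)) ∈ W k ∧ ∑ i ∈ Finset.range k, ex N 1 (H i) = 0 := by
  -- the common step
  have key : ∀ (p b m N : ℕ) (v G : ℕ → ℤ), p.Prime → 0 < b → Nat.Coprime m p → 0 < m →
      ∑ j ∈ Finset.range p, v j = 0 → (∀ i, G (i + m) = G i) → (fun i => (G i : ℂ)) ∈ W m →
      (∀ i, ∑ j ∈ Finset.range p, ex N 1 (v j * G i) = 0) →
      (fun i => ((step v p b i * G i : ℤ) : ℂ)) ∈ W (p ^ b * m) ∧
        ∑ i ∈ Finset.range (p ^ b * m), ex N 1 (step v p b i * G i) = 0 := by
    intro p b m N v G hp hb hmp hm hv hG hGW hsum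
    constructor
    · have h1 := W_mul (Nat.Coprime.pow_left b hmp.symm) (step_mem v hp hb hv) hGW
      have h2 : (fun i => ((step v p b i * G i : ℤ) : ℂ)) =
          (fun i => (step v p b i : ℂ)) * fun i => (G i : ℂ) := by
        funext i
        simp
      rw [h2]
      exact h1
    · have hGper : Function.Periodic G m := hG
      have hsper : Function.Periodic (step v p b) (p ^ b) := step_periodic v hp.pos hb
      refine sum_eq_zero_of_shift _ _ (m * p ^ (b - 1)) p hp.pos ?_ ?_
      · intro i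
        have e1 : step v p b (i + p ^ b * m) = step v p b i := by
          rw [mul_comm]
          exact hsper.nat_mul m i
        have e2 : G (i + p ^ b * m) = G i := hGper.nat_mul (p ^ b) i
        rw [e1, e2]
      · intro i
        have h1 : ∀ j ∈ Finset.range p, ex N 1 (step v p b (i + j * (m * p ^ (b - 1))) *
            G (i + j * (m * p ^ (b - 1)))) =
            ex N 1 (v ((i / p ^ (b - 1) + j * m) % p) * G i) := by
          intro j _
          rw [step_shift v hp.pos]
          have e2 : G (i + j * (m * p ^ (b - 1))) = G i := by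
            have h2 : j * (m * p ^ (b - 1)) = (j * p ^ (b - 1)) * m := by ring
            rw [h2]
            exact hGper.nat_mul (j * p ^ (b - 1)) i
          rw [e2]
        rw [Finset.sum_congr rfl h1]
        have h3 := sum_mod (fun j => ex N 1 (v j * G i)) p m (i / p ^ (b - 1)) hp.pos hmp
        rw [h3]
        exact hsum i
  by_cases hex : ∃ q, q.Prime ∧ q ≠ 2 ∧ q ∣ k
  · obtain ⟨q, hq, hq2, hqk⟩ := hex
    obtain ⟨b, m, hqm, hkm⟩ := Nat.exists_eq_pow_mul_and_not_dvd (n := k) (by omega) q hq.ne_one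
    have hb : 0 < b := by
      rcases Nat.eq_zero_or_pos b with h | h
      · rw [h, pow_zero, one_mul] at hkm
        exact absurd (hkm ▸ hqk) hqm
      · exact h
    have hm : 0 < m := by
      rcases Nat.eq_zero_or_pos m with h | h
      · rw [h, mul_zero] at hkm; omega
      · exact h
    have hcop : Nat.Coprime m q := ((Nat.Prime.coprime_iff_not_dvd hq).2 hqm).symm
    obtain ⟨G, hG1, hG2, hG3⟩ := exists_nowhere_zero q hq hq2 m hm
    have hodd : Odd q := hq.odd_of_ne_two hq2
    have h1 := key q b m q (fun j => (j : ℤ) - ((q - 1) / 2 : ℕ)) G hq hb hcop hm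
      (sum_centered q hodd) hG1 hG2 (by
        intro i
        have h2 : ∀ j ∈ Finset.range q, ex q 1 (((j : ℤ) - ((q - 1) / 2 : ℕ)) * G i) =
            ex q 1 (-(((q - 1) / 2 : ℕ) : ℤ) * G i) * ex q 1 (G i) ^ j := by
          intro j _
          rw [ex_pow, ← ex_add]
          congr 1
          ring
        rw [Finset.sum_congr rfl h2, ← Finset.mul_sum, geom_sum_eq (ex_one_ne q hq.pos _ (hG3 i)),
          ex_pow, ex_one_self q hq.pos, sub_self, zero_div, mul_zero])
    rw [← hkm] at h1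
    exact ⟨q, _, h1⟩
  · -- a power of two
    push Not at hex
    obtain ⟨b, m, hqm, hkm⟩ := Nat.exists_eq_pow_mul_and_not_dvd (n := k) (by omega) 2 (by norm_num)
    have hm1 : m = 1 := by
      by_contra hm1
      obtain ⟨r, hr, hrm⟩ := Nat.exists_prime_and_dvd hm1
      have hr2 : r ≠ 2 := by
        rintro rfl
        exact hqm hrm
      exact hex r hr hr2 (hkm ▸ hrm.mul_left _)
    rw [hm1, mul_one] at hkm
    have hb : 0 < b := by
      rcases Nat.eq_zero_or_pos b with h | h
      · rw [h, pow_zero] at hkm; omega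
      · exact h
    have h1 := key 2 b 1 4 (fun j => if j = 0 then 1 else -1) (fun _ => 1) Nat.prime_two hb
      (Nat.coprime_one_left 2) one_pos (by simp [Finset.sum_range_succ]) (fun _ => rfl)
      (Submodule.subset_span ⟨1, IsPrimitiveRoot.one, by funext i; simp⟩) (by
        intro i
        rw [Finset.sum_range_succ, Finset.sum_range_one]
        simp only [if_true, mul_one, one_ne_zero, if_false]
        have e1 : ex 4 1 1 = Complex.I := by
          unfold ex
          have : (2 * Real.pi * 1 * ((1 : ℤ) : ℝ) / ((4 : ℕ) : ℝ) : ℝ) = Real.pi / 2 := by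
            push_cast; ring
          rw [this]
          push_cast
          exact Complex.exp_pi_div_two_mul_I
        have e2 : ex 4 1 (-1) = -Complex.I := by
          unfold ex
          have : (2 * Real.pi * 1 * ((-1 : ℤ) : ℝ) / ((4 : ℕ) : ℝ) : ℝ) = -(Real.pi / 2) := by
            push_cast; ring
          rw [this]
          have h5 : Complex.exp (((-(Real.pi / 2) : ℝ) : ℂ) * Complex.I) =
              (Complex.exp (((Real.pi / 2 : ℝ) : ℂ) * Complex.I))⁻¹ := by
            rw [← Complex.exp_neg]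
            congr 1
            push_cast
            ring
          rw [h5]
          push_cast
          rw [Complex.exp_pi_div_two_mul_I, Complex.inv_I]
        rw [e1, e2, add_neg_cancel])
    rw [mul_one, ← hkm] at h1
    exact ⟨4, _, h1⟩

/-- Evaluating `F_k` along a one-parameter subgroup. -/
lemma F_path {k : ℕ} (hk : 0 < k) (N : ℕ) (H : ℕ → ℤ) (hH : (fun i => (H i : ℂ)) ∈ W k)
    (t : ℝ) : F k (fun j => ex N t (H (j : ℕ))) = ∑ i ∈ Finset.range k, ex N t (H i) := by
  rw [F_eq hk]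
  refine Finset.sum_congr rfl fun i _ => ?_
  have h1 := W_relation hk i _ hH
  have h2 : ∑ j, vec k i j * H (j : ℕ) = H i := by exact_mod_cast h1
  rw [← h2]
  simp_rw [ex_zpow]
  have h3 : ∀ s : Finset (Fin (Nat.totient k)),
      ∏ j ∈ s, ex N t (vec k i j * H (j : ℕ)) = ex N t (∑ j ∈ s, vec k i j * H (j : ℕ)) := by
    intro s
    classical
    induction s using Finset.induction_on with
    | empty => simp [ex]
    | insert a s ha ih => rw [Finset.prod_insert ha, Finset.sum_insert ha, ih, ex_add]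
  exact h3 Finset.univ

/-- **For every `k ≥ 1` the cyclovariety `x₀ + F_k(x) = 0` has a point on the unit torus.** -/
theorem result (k : ℕ) (hk : 1 ≤ k) : ∃ (x₀ : ℂ) (x : Fin (Nat.totient k) → ℂ),
    ‖x₀‖ = 1 ∧ (∀ j, ‖x j‖ = 1) ∧ x₀ + F k x = 0 := by
  suffices h : ∃ x : Fin (Nat.totient k) → ℂ, (∀ j, ‖x j‖ = 1) ∧ ‖F k x‖ = 1 by
    obtain ⟨x, h1, h2⟩ := h
    exact ⟨-F k x, x, by rw [norm_neg, h2], h1, by ring⟩
  rcases Nat.lt_or_ge k 2 with hk2 | hk2
  · have hk1 : k = 1 := by omega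
    subst hk1
    refine ⟨fun _ => 1, fun _ => norm_one, ?_⟩
    rw [F_eq one_pos]
    simp
  · obtain ⟨N, H, hH, hsum⟩ := exists_zero hk2
    set g : ℝ → ℝ := fun t => ‖∑ i ∈ Finset.range k, ex N t (H i)‖ with hg
    have hcont : Continuous g := by
      simp only [hg, ex]
      fun_prop
    have h0 : g 0 = k := by
      simp [hg, ex]
    have h1 : g 1 = 0 := by
      simp only [hg]
      rw [hsum, norm_zero]
    have hmem : (1 : ℝ) ∈ Set.Icc (g 1) (g 0) := by
      rw [h0, h1]
      exact ⟨zero_le_one, by exact_mod_cast hk⟩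
    obtain ⟨t, _, ht⟩ := intermediate_value_Icc' (zero_le_one (α := ℝ)) hcont.continuousOn hmem
    refine ⟨fun j => ex N t (H (j : ℕ)), fun j => norm_ex _ _ _, ?_⟩
    rw [F_path (by omega) N H hH t]
    exact ht

end Pool.Agent.Results.MP_086516_nt.TorusPoints
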